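import Pool.Agent.helper51.QW.Spec

/-!
# Project QW (MP_ad8ced_nt), row QWB: Selberg's sum over the small primes
-/

set_option autoImplicit false

namespace Pool.Agent.PT

open Finset Pool.Agent.helper71.AA

theorem QWB_Aw (w : ℕ) : Aw w = ∏ l ∈ (range (w + 1)).filter Nat.Prime, (1 - 1 / (l : ℝ)) := by
  have h := Nat.totient_eq_mul_prod_factors (primorial w)
  have hp : (primorial w).primeFactors = (range (w + 1)).filter Nat.Prime := by
    ext p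
    rw [Nat.mem_primeFactors, mem_filter, mem_range]
    constructor
    · rintro ⟨h1, h2, -⟩
      refine ⟨?_, h1⟩
      have := (h1.dvd_primorial_iff).1 h2
      omega
    · rintro ⟨h1, h2⟩
      exact ⟨h2, (h2.dvd_primorial_iff).2 (by omega), (primorial_pos w).ne'⟩
  rw [hp] at h
  have h2 : ((Nat.totient (primorial w) : ℕ) : ℝ) =
      (primorial w : ℝ) * ∏ l ∈ (range (w + 1)).filter Nat.Prime, (1 - 1 / (l : ℝ)) := by
    have h3 := congrArg (fun x : ℚ => (x : ℝ)) h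
    push_cast at h3
    simp only [one_div]
    exact h3
  have h0 : (primorial w : ℝ) ≠ 0 := by exact_mod_cast (primorial_pos w).ne'
  rw [Aw, h2, mul_div_cancel_left₀ _ h0]

theorem QWB_Vw (w : ℕ) (z : ℝ) (hwz : w ≤ ⌊z⌋₊) :
    MK.Vw z = Aw w * ∏ l ∈ Qs w ⌊z⌋₊, (1 - 1 / (l : ℝ)) := by
  rw [QWB_Aw, MK.Vw]
  have hd : Disjoint ((range (w + 1)).filter Nat.Prime) (Qs w ⌊z⌋₊) := by
    rw [Finset.disjoint_left]
    intro p h1 h2
    rw [mem_filter, mem_range] at h1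
    rw [Qs, mem_filter, mem_Ioc] at h2
    omega
  rw [← prod_union hd]
  refine prod_congr ?_ fun _ _ => rfl
  ext p
  rw [RLS.PP, mem_filter, mem_range, mem_union, mem_filter, mem_range, Qs, mem_filter, mem_Ioc]
  constructor
  · rintro ⟨h1, h2, -⟩
    by_cases h3 : p ≤ w
    · exact Or.inl ⟨by omega, h2⟩
    · exact Or.inr ⟨⟨by omega, by omega⟩, h2⟩
  · rintro (⟨h1, h2⟩ | ⟨⟨h1, h3⟩, h2⟩)
    · exact ⟨by omega, h2, by exact_mod_cast h2.one_lt⟩
    · exact ⟨by omega, h2, by exact_mod_cast h2.one_lt⟩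

theorem QWB_prod (Q : Finset ℕ) (hQ : ∀ l ∈ Q, 2 ≤ l) :
    (∏ l ∈ Q, (1 + 1 / ((l : ℝ) - 1))) * ∏ l ∈ Q, (1 - 1 / (l : ℝ)) = 1 := by
  rw [← prod_mul_distrib]
  refine prod_eq_one fun l hl => ?_
  have h2 : (2 : ℝ) ≤ l := by exact_mod_cast hQ l hl
  have h1 : (l : ℝ) - 1 ≠ 0 := by linarith
  have h0 : (l : ℝ) ≠ 0 := by linarith
  field_simp
  ring

theorem QWB_sum (Q : Finset ℕ) :
    ∑ K ∈ Q.powerset, 1 / ph K = ∏ l ∈ Q, (1 + 1 / ((l : ℝ) - 1)) := by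
  rw [Finset.prod_one_add]
  refine sum_congr rfl fun K _ => ?_
  unfold ph
  rw [prod_div_distrib, prod_const_one]

theorem QWB_Gs {K₁ : ℝ} {Z : ℕ} {Q : Finset ℕ} {R : ℝ}
    (h : ∑ H ∈ Q.powerset.filter (fun H => R < pr H), 1 / ph H ≤
      K₁ * R ^ (-(1 / Real.log Z)) * ∏ l ∈ Q, (1 + 1 / ((l : ℝ) - 1))) :
    (1 - K₁ * R ^ (-(1 / Real.log Z))) * (∏ l ∈ Q, (1 + 1 / ((l : ℝ) - 1))) ≤ Gs Q R := by
  have h1 : Gs Q R + ∑ H ∈ Q.powerset.filter (fun H => R < pr H), 1 / ph H =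
      ∏ l ∈ Q, (1 + 1 / ((l : ℝ) - 1)) := by
    rw [← QWB_sum]
    unfold Gs Pool.Agent.helper71.AA.Sub
    have e : Q.powerset.filter (fun H => R < pr H) =
        Q.powerset.filter (fun H => ¬ pr H ≤ R) := by
      refine filter_congr fun H _ => ?_
      rw [not_le]
    rw [e]
    exact sum_filter_add_sum_filter_not _ _ _
  linarith

theorem QWB : QWB_stmt := by
  obtain ⟨K, hK, hR⟩ := RKN
  intro eps heps
  have hK0 : 0 < K := by linarith
  obtain ⟨ρ, hρ⟩ : ∃ ρ : ℝ, ρ = 0.00001 := ⟨_, rfl⟩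
  have hρ0 : 0 < ρ := by rw [hρ]; norm_num
  refine ⟨eps * ρ / K, by positivity, ?_⟩
  intro η hη hη0 w hw
  refine ⟨((w : ℝ) + 2) ^ (1 / η), ?_⟩
  intro X hX
  have hw0 : (0 : ℝ) ≤ w := Nat.cast_nonneg w
  have hX1 : 1 ≤ X := le_trans (Real.one_le_rpow (by linarith) (by positivity)) hX
  have hX0 : 0 < X := by linarith
  have hXη : (w : ℝ) + 2 ≤ X ^ η := by
    calc (w : ℝ) + 2 = (((w : ℝ) + 2) ^ (1 / η)) ^ η := by
          rw [← Real.rpow_mul (by linarith), one_div, inv_mul_cancel₀ hη.ne', Real.rpow_one]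
      _ ≤ X ^ η := Real.rpow_le_rpow (by positivity) hX hη.le
  obtain ⟨Z, hZdef⟩ : ∃ Z : ℕ, Z = ⌊X ^ η⌋₊ := ⟨_, rfl⟩
  have hZw : w + 2 ≤ Z := by
    rw [hZdef]
    exact Nat.le_floor (by exact_mod_cast hXη)
  have hZle : (Z : ℝ) ≤ X ^ η := by
    rw [hZdef]
    exact Nat.floor_le (by positivity)
  have hZ0 : (2 : ℝ) ≤ Z := by exact_mod_cast (by omega : 2 ≤ Z)
  have hQ2 : ∀ l ∈ Qs w Z, 2 ≤ l := fun l hl => ((mem_filter.1 hl).2).two_le
  have hR0 : 0 < Rr X := by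
    unfold Rr
    positivity
  have hlogR : Real.log (Rr X) = ρ * Real.log X := by rw [Rr, Real.log_rpow hX0, hρ]
  have hlogZ : Real.log Z ≤ η * Real.log X := by
    rw [← Real.log_rpow hX0]
    exact Real.log_le_log (by linarith) hZle
  have hlogZ0 : 0 < Real.log Z := Real.log_pos (by linarith)
  have hratio : ρ / η ≤ Real.log (Rr X) / Real.log Z := by
    rw [div_le_div_iff₀ hη hlogZ0, hlogR]
    nlinarith
  have hexp : Real.exp (-(ρ / η)) ≤ η / ρ := by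
    have h1 : 0 < ρ / η := by positivity
    have h2 : η / ρ = (ρ / η)⁻¹ := (inv_div ρ η).symm
    rw [Real.exp_neg, h2]
    exact inv_anti₀ h1 (by linarith [Real.add_one_le_exp (ρ / η)])
  have hRp : Rr X ^ (-(1 / Real.log Z)) ≤ η / ρ := by
    rw [Real.rpow_def_of_pos hR0]
    refine le_trans (Real.exp_le_exp.2 ?_) hexp
    have : Real.log (Rr X) * (-(1 / Real.log Z)) = -(Real.log (Rr X) / Real.log Z) := by ring
    rw [this]
    linarith
  have hKe : K * Rr X ^ (-(1 / Real.log Z)) ≤ eps := by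
    calc K * Rr X ^ (-(1 / Real.log Z)) ≤ K * (η / ρ) := mul_le_mul_of_nonneg_left hRp hK0.le
      _ ≤ K * ((eps * ρ / K) / ρ) :=
          mul_le_mul_of_nonneg_left (div_le_div_of_nonneg_right hη0 hρ0.le) hK0.le
      _ = eps := by field_simp
  have hG := QWB_Gs (hR w Z hw (by omega) (Qs w Z) (Subset.refl _) (Rr X) hR0)
  have hprod := QWB_prod (Qs w Z) hQ2
  have hPi : 0 ≤ ∏ l ∈ Qs w Z, (1 + 1 / ((l : ℝ) - 1)) := by
    refine prod_nonneg fun l hl => ?_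
    have h2 : (2 : ℝ) ≤ l := by exact_mod_cast hQ2 l hl
    have : 0 ≤ 1 / ((l : ℝ) - 1) := one_div_nonneg.2 (by linarith)
    linarith
  have hM : 0 ≤ ∏ l ∈ Qs w Z, (1 - 1 / (l : ℝ)) := by
    refine prod_nonneg fun l hl => ?_
    have h2 : (2 : ℝ) ≤ l := by exact_mod_cast hQ2 l hl
    have : 1 / (l : ℝ) ≤ 1 := by
      rw [div_le_one (by linarith)]
      linarith
    linarith
  have hAw : 0 ≤ Aw w := by
    unfold Aw
    positivity
  have hV : MK.Vw (X ^ η) = Aw w * ∏ l ∈ Qs w Z, (1 - 1 / (l : ℝ)) := by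
    rw [QWB_Vw w (X ^ η) (by rw [← hZdef]; omega), ← hZdef]
  have hQm : Qm w X η = Qs w Z := by rw [Qm, hZdef]
  rw [hV, hQm]
  calc (1 - eps) * Aw w = ((1 - eps) * (∏ l ∈ Qs w Z, (1 + 1 / ((l : ℝ) - 1)))) *
        (Aw w * ∏ l ∈ Qs w Z, (1 - 1 / (l : ℝ))) := by
        linear_combination (-((1 - eps) * Aw w)) * hprod
    _ ≤ ((1 - K * Rr X ^ (-(1 / Real.log Z))) * (∏ l ∈ Qs w Z, (1 + 1 / ((l : ℝ) - 1)))) *
        (Aw w * ∏ l ∈ Qs w Z, (1 - 1 / (l : ℝ))) :=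
        mul_le_mul_of_nonneg_right (mul_le_mul_of_nonneg_right (by linarith) hPi)
          (mul_nonneg hAw hM)
    _ ≤ _ := mul_le_mul_of_nonneg_right hG (mul_nonneg hAw hM)

end Pool.Agent.PT
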